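import Mathlib

/-!
A locally compact Hausdorff space in which every family of at most continuum many nonempty open
sets (in particular every cellular family) is met by a compact set, but which is not weakly
Lindelöf.
-/

set_option autoImplicit false

namespace Pool.Agent.H610R3.CellLind

open Set Topology Cardinal

/-- The index set, of cardinality `2 ^ 𝔠`. -/
abbrev Lam : Type := Set (Set ℕ)

/-- The functions from `Lam` to `Bool`, with the topology in which a set is open if with each
point it contains all points agreeing with it on some countable set of coordinates. -/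
def T : Type := Lam → Bool

/-- `y` agrees with `x` on `A`. -/
def Agree (A : Set Lam) (x y : T) : Prop := ∀ i ∈ A, y i = x i

instance : TopologicalSpace T where
  IsOpen U := ∀ x ∈ U, ∃ A : Set Lam, A.Countable ∧ ∀ y, Agree A x y → y ∈ U
  isOpen_univ := fun _ _ => ⟨∅, countable_empty, fun _ _ => mem_univ _⟩
  isOpen_inter := by
    intro U V hU hV x hx
    obtain ⟨A, hA, hA'⟩ := hU x hx.1
    obtain ⟨B, hB, hB'⟩ := hV x hx.2
    exact ⟨A ∪ B, hA.union hB, fun y hy => ⟨hA' y fun i hi => hy i (Or.inl hi),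
      hB' y fun i hi => hy i (Or.inr hi)⟩⟩
  isOpen_sUnion := by
    intro S hS x hx
    obtain ⟨U, hU, hxU⟩ := hx
    obtain ⟨A, hA, hA'⟩ := hS U hU x hxU
    exact ⟨A, hA, fun y hy => ⟨U, hU, hA' y hy⟩⟩

theorem isOpen_iff' {U : Set T} : IsOpen U ↔
    ∀ x ∈ U, ∃ A : Set Lam, A.Countable ∧ ∀ y, Agree A x y → y ∈ U := Iff.rfl

theorem continuous_of {f : T → Bool}
    (hf : ∃ A : Set Lam, A.Countable ∧ ∀ x y, Agree A x y → f y = f x) : Continuous f := by
  obtain ⟨A, hA, hf⟩ := hf
  refine continuous_def.2 fun s _ => ?_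
  intro x hx
  refine ⟨A, hA, fun y hy => ?_⟩
  show f y ∈ s
  rw [hf x y hy]
  exact hx

/-- evaluation at a coordinate -/
def ev (i : Lam) : T → Bool := fun x => x i

theorem continuous_ev (i : Lam) : Continuous (ev i) :=
  continuous_of ⟨{i}, countable_singleton i, fun _ _ h => h i rfl⟩

/-- The extension of `ev i` to the Stone-Cech compactification. -/
noncomputable def evE (i : Lam) : StoneCech T → Bool := stoneCechExtend (continuous_ev i)

theorem continuous_evE (i : Lam) : Continuous (evE i) := continuous_stoneCechExtend _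

theorem evE_unit (i : Lam) (x : T) : evE i (stoneCechUnit x) = x i :=
  congrFun (stoneCechExtend_extends (continuous_ev i)) x

/-- The space. -/
abbrev X : Type := {z : StoneCech T // ∃ i, evE i z = false}

/-- the clopen compact pieces -/
def K (i : Lam) : Set X := {z | evE i z.1 = false}

theorem isOpen_K (i : Lam) : IsOpen (K i) :=
  (isOpen_discrete ({false} : Set Bool)).preimage ((continuous_evE i).comp continuous_subtype_val)

theorem isCompact_K (i : Lam) : IsCompact (K i) := by
  have hind : IsInducing (Subtype.val : X → StoneCech T) := IsInducing.subtypeVal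
  refine hind.isCompact_iff.2 ?_
  have : (Subtype.val : X → StoneCech T) '' K i = evE i ⁻¹' {false} := by
    ext z
    constructor
    · rintro ⟨w, hw, rfl⟩
      exact hw
    · intro hz
      exact ⟨⟨z, i, hz⟩, hz, rfl⟩
  rw [this]
  exact ((isClosed_discrete _).preimage (continuous_evE i)).isCompact

theorem isOpen_range : IsOpen {z : StoneCech T | ∃ i, evE i z = false} := by
  have : {z : StoneCech T | ∃ i, evE i z = false} = ⋃ i, evE i ⁻¹' {false} := by
    ext z
    simp
  rw [this]
  exact isOpen_iUnion fun i => (isOpen_discrete _).preimage (continuous_evE i)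

/-- Every nonempty open set in `X` contains (the image of) a basic open set of `T`. -/
theorem exists_point {U : Set X} (hU : IsOpen U) (hne : U.Nonempty) :
    ∃ (x : T) (A : Set Lam), A.Countable ∧ ∀ y, Agree A x y →
      ∃ h : ∃ i, evE i (stoneCechUnit y) = false, (⟨stoneCechUnit y, h⟩ : X) ∈ U := by
  obtain ⟨V, hV, rfl⟩ := isOpen_induced_iff.1 hU
  obtain ⟨z, hz⟩ := hne
  obtain ⟨x, hx⟩ := denseRange_stoneCechUnit.exists_mem_open (hV.inter isOpen_range)
    ⟨z.1, hz, z.2⟩
  have hO : IsOpen (stoneCechUnit ⁻¹' (V ∩ {z : StoneCech T | ∃ i, evE i z = false})) :=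
    (hV.inter isOpen_range).preimage continuous_stoneCechUnit
  obtain ⟨A, hA, hA'⟩ := hO x hx
  exact ⟨x, A, hA, fun y hy => ⟨(hA' y hy).2, (hA' y hy).1⟩⟩

/-- trace of `i` on the sequence `q` -/
def tr (q : ℕ → Set ℕ) (i : Lam) : Set ℕ := {n | q n ∈ i}

/-- the parameters of the dense set -/
abbrev D : Type := (ℕ → Set ℕ) × (ℕ → Option (Set ℕ))

open Classical in
/-- the dense set -/
noncomputable def e (d : D) : T := fun i => decide (∃ k, d.2 k = some (tr d.1 i))

theorem dense_e (x : T) {A : Set Lam} (hA : A.Countable) : ∃ d : D, Agree A x (e d) := by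
  classical
  -- a sequence separating the elements of `A`
  have h1 : ∀ i j : Lam, ∃ r : Set ℕ, i ≠ j → ¬ (r ∈ i ↔ r ∈ j) := by
    intro i j
    by_cases hij : i = j
    · exact ⟨∅, fun h => absurd hij h⟩
    · by_contra hcon
      push Not at hcon
      apply hij
      ext r
      exact (hcon r).2
  choose r hr using h1
  have hC : ({∅} ∪ (fun p : Lam × Lam => r p.1 p.2) '' (A ×ˢ A)).Countable :=
    (countable_singleton _).union ((hA.prod hA).image _)
  obtain ⟨q, hq⟩ := hC.exists_eq_range ⟨∅, Or.inl rfl⟩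
  have hinj : ∀ i ∈ A, ∀ j ∈ A, tr q i = tr q j → i = j := by
    intro i hi j hj hij
    by_contra hne
    have : r i j ∈ range q := by
      rw [← hq]
      exact Or.inr ⟨(i, j), ⟨hi, hj⟩, rfl⟩
    obtain ⟨n, hn⟩ := this
    apply hr i j hne
    rw [← hn]
    exact (Set.ext_iff.1 hij n)
  have hS : ({none} ∪ (fun i => some (tr q i)) '' {i ∈ A | x i = true}).Countable :=
    (countable_singleton _).union ((hA.mono fun i hi => hi.1).image _)
  obtain ⟨τ, hτ⟩ := hS.exists_eq_range ⟨none, Or.inl rfl⟩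
  refine ⟨(q, τ), fun i hi => ?_⟩
  have key : (∃ k, τ k = some (tr q i)) ↔ x i = true := by
    constructor
    · rintro ⟨k, hk⟩
      have : τ k ∈ ({none} ∪ (fun i => some (tr q i)) '' {i ∈ A | x i = true}) := by
        rw [hτ]
        exact ⟨k, rfl⟩
      rw [hk] at this
      rcases this with h | ⟨j, ⟨hj, hxj⟩, hji⟩
      · exact absurd h (by simp)
      · have : j = i := hinj j hj i hi (Option.some_injective _ hji)
        rw [← this]
        exact hxj
    · intro hx
      have : some (tr q i) ∈ range τ := by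
        rw [← hτ]
        exact Or.inr ⟨i, ⟨hi, hx⟩, rfl⟩
      exact this
  show decide _ = x i
  by_cases hx : x i = true
  · rw [hx]
    exact decide_eq_true (key.2 hx)
  · rw [Bool.not_eq_true] at hx
    rw [hx]
    refine decide_eq_false fun h => ?_
    rw [key.1 h] at hx
    exact Bool.noConfusion hx

theorem mk_D : #D ≤ 𝔠 := by
  have h1 : #(Set ℕ) = 𝔠 := by simp
  have h2 : #(ℕ → Set ℕ) = 𝔠 := by simp
  have h4 : 𝔠 + 1 = 𝔠 := add_one_eq aleph0_le_continuum
  have h3 : #(ℕ → Option (Set ℕ)) = 𝔠 := by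
    have h5 : #(Option (Set ℕ)) = 𝔠 := by rw [mk_option, h1, h4]
    rw [← power_def, mk_nat, h5, continuum_power_aleph0]
  rw [mk_prod, lift_id, lift_id, h2, h3, continuum_mul_self]

theorem mk_Lam : 𝔠 < #Lam := by
  have h1 : #(Set ℕ) = 𝔠 := by simp
  rw [mk_set, h1]
  exact cantor _

theorem exists_index (𝒰 : Set (Set X)) (h : ∀ U ∈ 𝒰, IsOpen U ∧ U.Nonempty)
    (hd : 𝒰.PairwiseDisjoint id) : ∃ i : Lam, ∀ U ∈ 𝒰, (K i ∩ U).Nonempty := by
  classical
  have h1 : ∀ U : 𝒰, ∃ (x : T) (A : Set Lam), A.Countable ∧ ∀ y, Agree A x y →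
      ∃ h : ∃ i, evE i (stoneCechUnit y) = false, (⟨stoneCechUnit y, h⟩ : X) ∈ U.1 :=
    fun U => exists_point (h U.1 U.2).1 (h U.1 U.2).2
  choose x A hA hx using h1
  have h2 : ∀ U : 𝒰, ∃ d : D, Agree (A U) (x U) (e d) := fun U => dense_e (x U) (hA U)
  choose d hd' using h2
  have hinj : Function.Injective d := by
    intro U V hUV
    by_contra hne
    have hne' : U.1 ≠ V.1 := fun h => hne (Subtype.ext h)
    have hdis := hd U.2 V.2 hne'
    obtain ⟨h1, h1'⟩ := hx U _ (hd' U)
    obtain ⟨h2, h2'⟩ := hx V _ (hd' V)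
    refine Set.disjoint_left.1 hdis h1' ?_
    have : (⟨stoneCechUnit (e (d U)), h1⟩ : X) = ⟨stoneCechUnit (e (d V)), h2⟩ := by
      apply Subtype.ext
      show stoneCechUnit (e (d U)) = stoneCechUnit (e (d V))
      rw [hUV]
    show (⟨stoneCechUnit (e (d U)), h1⟩ : X) ∈ V.1
    rw [this]
    exact h2'
  have hcard : #𝒰 ≤ 𝔠 := (mk_le_of_injective hinj).trans mk_D
  have hun : #(⋃ U : 𝒰, A U : Set Lam) ≤ 𝔠 := by
    refine (mk_iUnion_le_sum_mk).trans ?_
    refine (sum_le_mk_mul_iSup _).trans ?_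
    refine (mul_le_mul' hcard (ciSup_le' fun U => (le_aleph0_iff_set_countable.2 (hA U)).trans
      aleph0_le_continuum)).trans ?_
    rw [continuum_mul_self]
  have hex : ∃ i, i ∉ (⋃ U : 𝒰, A U : Set Lam) := by
    by_contra hcon
    push Not at hcon
    have : (⋃ U : 𝒰, A U : Set Lam) = Set.univ := eq_univ_of_forall hcon
    rw [this, mk_univ] at hun
    exact absurd mk_Lam (not_lt.2 hun)
  obtain ⟨i, hi⟩ := hex
  refine ⟨i, fun U hU => ?_⟩
  have hi' : i ∉ A ⟨U, hU⟩ := fun h => hi (mem_iUnion.2 ⟨⟨U, hU⟩, h⟩)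
  let y : T := Function.update (x ⟨U, hU⟩) i false
  obtain ⟨h1, h2⟩ := hx ⟨U, hU⟩ y (by
    intro j hj
    have hji : j ≠ i := by
      rintro rfl
      exact hi' hj
    exact Function.update_of_ne hji _ _)
  refine ⟨_, ?_, h2⟩
  show evE i (stoneCechUnit y) = false
  rw [evE_unit]
  exact Function.update_self (f := x ⟨U, hU⟩) i false

theorem not_dense (C : Set Lam) (hC : C.Countable) : ¬ Dense (⋃ i ∈ C, K i : Set X) := by
  classical
  intro hdense
  obtain ⟨j, hj⟩ : ∃ j, j ∉ C := by
    by_contra hcon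
    push Not at hcon
    have h1 : C = Set.univ := eq_univ_of_forall hcon
    have h2 : #C ≤ ℵ₀ := le_aleph0_iff_set_countable.2 hC
    rw [h1, mk_univ] at h2
    exact absurd (mk_Lam.trans_le (h2.trans aleph0_le_continuum)) (lt_irrefl _)
  let g : T → Bool := fun x => decide (∀ i ∈ C, x i = true)
  have hg : Continuous g := continuous_of ⟨C, hC, fun x y h => by
    show decide _ = decide _
    congr 1
    apply propext
    constructor
    · intro hy i hi
      rw [← h i hi]
      exact hy i hi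
    · intro hx i hi
      rw [h i hi]
      exact hx i hi⟩
  have hgE : ∀ x, stoneCechExtend hg (stoneCechUnit x) = g x :=
    fun x => congrFun (stoneCechExtend_extends hg) x
  let x₀ : T := fun i => decide (i ≠ j)
  have hx₀ : g x₀ = true := decide_eq_true fun i hi =>
    decide_eq_true (fun h => hj (h ▸ hi))
  have hx₀j : evE j (stoneCechUnit x₀) = false := by
    rw [evE_unit]
    exact decide_eq_false (not_not.2 rfl)
  let G : Set X := {z | stoneCechExtend hg z.1 = true}
  have hG : IsOpen G := (isOpen_discrete ({true} : Set Bool)).preimage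
    ((continuous_stoneCechExtend hg).comp continuous_subtype_val)
  obtain ⟨z, hzG, hz⟩ := hdense.inter_open_nonempty G hG
    ⟨⟨stoneCechUnit x₀, j, hx₀j⟩, (hgE x₀).trans hx₀⟩
  rw [mem_iUnion₂] at hz
  obtain ⟨i, hiC, hzi⟩ := hz
  have hO : IsOpen {w : StoneCech T | stoneCechExtend hg w = true ∧ evE i w = false} :=
    ((isOpen_discrete ({true} : Set Bool)).preimage (continuous_stoneCechExtend hg)).inter
      ((isOpen_discrete ({false} : Set Bool)).preimage (continuous_evE i))
  obtain ⟨x, hx1, hx2⟩ := denseRange_stoneCechUnit.exists_mem_open hO ⟨z.1, hzG, hzi⟩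
  rw [hgE] at hx1
  rw [evE_unit] at hx2
  have := of_decide_eq_true hx1 i hiC
  rw [hx2] at this
  exact Bool.noConfusion this

theorem main : ∃ (X : Type) (_ : TopologicalSpace X), T3Space X ∧
      (∀ 𝒰 : Set (Set X),
          (∀ U ∈ 𝒰, IsOpen U ∧ U.Nonempty) → 𝒰.PairwiseDisjoint id →
            ∃ L : Set X, IsLindelof L ∧ ∀ U ∈ 𝒰, (L ∩ U).Nonempty) ∧
      (∃ 𝒱 : Set (Set X), (∀ V ∈ 𝒱, IsOpen V) ∧ ⋃₀ 𝒱 = Set.univ ∧
          ∀ 𝒲 : Set (Set X), 𝒲 ⊆ 𝒱 → 𝒲.Countable → ¬ Dense (⋃₀ 𝒲)) := by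
  refine ⟨X, inferInstance, inferInstance, ?_, ?_⟩
  · intro 𝒰 h hd
    obtain ⟨i, hi⟩ := exists_index 𝒰 h hd
    exact ⟨K i, (isCompact_K i).isLindelof, hi⟩
  · refine ⟨range K, ?_, ?_, ?_⟩
    · rintro _ ⟨i, rfl⟩
      exact isOpen_K i
    · rw [eq_univ_iff_forall]
      intro z
      obtain ⟨i, hi⟩ := z.2
      exact ⟨K i, ⟨i, rfl⟩, hi⟩
    · intro 𝒲 h𝒲 hc hdense
      have h1 : ∀ W : 𝒲, ∃ i, K i = W.1 := fun W => h𝒲 W.2
      choose i hi using h1
      have : Countable 𝒲 := hc.to_subtype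
      refine not_dense (range i) (countable_range i) (hdense.mono ?_)
      rintro z ⟨W, hW, hz⟩
      rw [mem_iUnion₂]
      exact ⟨i ⟨W, hW⟩, ⟨_, rfl⟩, by rw [hi]; exact hz⟩

end Pool.Agent.H610R3.CellLind
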